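import Mathlib

/-!
# Oriented graphs, semi-degree, strong connectivity, admissible numbers (MP_e01c10_co)
-/

namespace W_e01c10_h65

variable {V : Type}

/-- `D` is an oriented graph: there are no two opposite arcs (in particular no loops). -/
def Oriented (D : V → V → Prop) : Prop := ∀ x y, D x y → ¬ D y x

/-- `D` contains a directed cycle of length three. -/
def HasTriangle (D : V → V → Prop) : Prop := ∃ x y z, D x y ∧ D y z ∧ D z x

/-- The out-degree of the vertex `x`. -/
noncomputable def outdeg (D : V → V → Prop) (x : V) : ℕ := {y | D x y}.ncard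

/-- The in-degree of the vertex `x`. -/
noncomputable def indeg (D : V → V → Prop) (x : V) : ℕ := {y | D y x}.ncard

/-- The minimum semi-degree: the minimum of all out-degrees and all in-degrees. -/
noncomputable def semideg (D : V → V → Prop) : ℕ := ⨅ x, min (outdeg D x) (indeg D x)

/-- `D - S` is strongly connected: any two vertices outside `S` are joined by a directed walk
which avoids `S`. -/
def StrongOff (D : V → V → Prop) (S : Set V) : Prop :=
  ∀ x y, x ∉ S → y ∉ S → Relation.ReflTransGen (fun u v => D u v ∧ u ∉ S ∧ v ∉ S) x y

/-- The strong connectivity: the least size of a set `S` such that `D - S` is not strongly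
connected. -/
noncomputable def conn (D : V → V → Prop) : ℕ := sInf {m | ∃ S : Set V, S.ncard = m ∧ ¬ StrongOff D S}

/-- `ψ` is admissible for `r`: every oriented graph `D` with minimum semi-degree `d ≥ 1`, order at
most `r d` and connectivity at most `ψ d` contains a triangle. -/
def Admissible (r ψ : ℝ) : Prop :=
  ∀ (V : Type) [Fintype V] (D : V → V → Prop) (d : ℕ), 1 ≤ d → Oriented D → semideg D = d →
    (Fintype.card V : ℝ) ≤ r * d → (conn D : ℝ) ≤ ψ * d → HasTriangle D

/-- `ψ(r)`: the supremum of the numbers in `(0, 1]` which are admissible for `r`. -/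
noncomputable def psi (r : ℝ) : ℝ := sSup {ψ : ℝ | 0 < ψ ∧ ψ ≤ 1 ∧ Admissible r ψ}

end W_e01c10_h65
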