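import Pool.Agent.W_e01c10_h65.Graph

/-!
# Gluing a near-extremal graph with its reverse

`H` is an oriented graph on `W` without triangles and with all out-degrees at least `δ`. A set `X`
of `k` in-neighbours of a vertex `v` is chosen, all of in-degree at least `k`. The new graph consists
of `H` and of a reversed copy of `H` which share the set `X`.
-/

namespace W_e01c10_h65

/-- The condition of the Caccetta-Häggkvist type for `c`: every nonempty finite digraph without loops
of order `n` in which all out-degrees are at least `c n` has a directed cycle of length at most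
three. -/
def CH (c : ℝ) : Prop := ∀ (V : Type) [Fintype V] [Nonempty V] (D : V → V → Prop),
  (∀ x, ¬ D x x) → (∀ x, c * Fintype.card V ≤ outdeg D x) →
    (∃ x y, D x y ∧ D y x) ∨ HasTriangle D

/-- The least constant `c` with this property. -/
noncomputable def cch : ℝ := sInf {c | CH c}

section glue

variable {W : Type} (H : W → W → Prop) (v : W) (X : Set W)

/-- The glued graph: `inl w`, `w ∈ X`, is the part `S`, the other `inl w` form `B` and the `inr w`
form `A`. -/
def Gl : W ⊕ {w // w ∉ X} → W ⊕ {w // w ∉ X} → Prop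
  | .inl w, .inl w' => H w w' ∧ ¬ (w ∈ X ∧ w' ∈ X)
  | .inl w, .inr a => w ∈ X ∧ H a w
  | .inr a, .inl w => (w ∈ X ∧ H w a) ∨ (w ∉ X ∧ (H v a ∨ H v w))
  | .inr a, .inr a' => H a' a

variable {H v X}

theorem Gl_oriented (hH : Oriented H) : Oriented (Gl H v X) := by
  rintro (w | a) (w' | a') h h' <;> simp only [Gl] at h h'
  · exact hH _ _ h.1 h'.1
  · rcases h' with h' | h'
    · exact hH _ _ h.2 h'.2
    · exact h'.1 h.1
  · rcases h with h | h
    · exact hH _ _ h.2 h'.2
    · exact h.1 h'.1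
  · exact hH _ _ h h'

/-- the mixed triangle `b → s → a → b` -/
theorem no_bsa (hT : ¬ HasTriangle H) (hX : ∀ x ∈ X, H x v) {b s a : W} (hb : b ∉ X) (hs : s ∈ X)
    (h1 : H b s) (h2 : H a s) (h3 : (b ∈ X ∧ H b a) ∨ (b ∉ X ∧ (H v a ∨ H v b))) : False := by
  rcases h3 with h3 | ⟨_, h3 | h3⟩
  · exact hb h3.1
  · exact hT ⟨v, a, s, h3, h2, hX s hs⟩
  · exact hT ⟨v, b, s, h3, h1, hX s hs⟩

/-- a triangle through two vertices of `A` -/
theorem no_aas (hT : ¬ HasTriangle H) {a a' w : W} (h1 : H a' a) (h2 : w ∈ X ∧ H a w)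
    (h3 : (w ∈ X ∧ H w a') ∨ (w ∉ X ∧ (H v a' ∨ H v w))) : False := by
  rcases h3 with h3 | h3
  · exact hT ⟨w, a', a, h3.2, h1, h2.2⟩
  · exact h3.1 h2.1

/-- a triangle `w → w' → a → w` -/
theorem no_wwa (hT : ¬ HasTriangle H) (hX : ∀ x ∈ X, H x v) {w w' a : W}
    (h1 : H w w' ∧ ¬ (w ∈ X ∧ w' ∈ X)) (h2 : w' ∈ X ∧ H a w')
    (h3 : (w ∈ X ∧ H w a) ∨ (w ∉ X ∧ (H v a ∨ H v w))) : False := by
  have hw : w ∉ X := fun hw => h1.2 ⟨hw, h2.1⟩
  exact no_bsa hT hX hw h2.1 h1.1 h2.2 h3

theorem Gl_noTri (hT : ¬ HasTriangle H) (hX : ∀ x ∈ X, H x v) : ¬ HasTriangle (Gl H v X) := by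
  rintro ⟨x, y, z, h, h', h''⟩
  rcases x with x | x <;> rcases y with y | y <;> rcases z with z | z <;>
    simp only [Gl] at h h' h''
  · exact hT ⟨x, y, z, h.1, h'.1, h''.1⟩
  · exact no_wwa hT hX h h' h''
  · exact no_wwa hT hX h'' h h'
  · exact no_aas hT h' h h''
  · exact no_wwa hT hX h' h'' h
  · exact no_aas hT h'' h' h
  · exact no_aas hT h h'' h'
  · exact hT ⟨z, y, x, h', h, h''⟩

theorem Gl_cut (hv : v ∉ X) : ¬ StrongOff (Gl H v X) (Sum.inl '' X) := by
  intro h
  have h1 := h (.inl v) (.inr ⟨v, hv⟩) (by simpa using hv) (by simp)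
  have key : ∀ y, Relation.ReflTransGen (fun u w => Gl H v X u w ∧
      u ∉ (Sum.inl '' X : Set (W ⊕ {w // w ∉ X})) ∧
      w ∉ (Sum.inl '' X : Set (W ⊕ {w // w ∉ X}))) (.inl v) y → ∀ z, y ≠ .inr z := by
    intro y hy
    induction hy with
    | refl => intro z hz; simp at hz
    | @tail b c _ hbc ih =>
      intro z hz
      subst hz
      obtain ⟨hbc, hb, _⟩ := hbc
      rcases b with w | a
      · exact hb ⟨w, hbc.1, rfl⟩
      · exact ih a rfl
  exact key _ h1 _ rfl

variable [Finite W]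

theorem Gl_conn (hv : v ∉ X) : conn (Gl H v X) ≤ X.ncard := by
  apply Nat.sInf_le
  exact ⟨_, Set.ncard_image_of_injective _ Sum.inl_injective, Gl_cut hv⟩

theorem ncard_gl (P : Set W) (Q : Set {w // w ∉ X}) :
    (Sum.inl '' P ∪ Sum.inr '' Q : Set (W ⊕ {w // w ∉ X})).ncard = P.ncard + Q.ncard := by
  rw [Set.ncard_union_eq, Set.ncard_image_of_injective _ Sum.inl_injective,
    Set.ncard_image_of_injective _ Sum.inr_injective]
  rw [Set.disjoint_left]
  rintro x ⟨p, _, rfl⟩ ⟨q, _, hq⟩
  cases hq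

theorem ncard_sub (P : Set W) : {a : {w // w ∉ X} | (a : W) ∈ P}.ncard = (P \ X).ncard := by
  rw [← Set.ncard_image_of_injective _ Subtype.val_injective]
  congr 1
  ext w
  simp only [Set.mem_image, Set.mem_setOf_eq, Subtype.exists, exists_and_left, exists_prop,
    exists_eq_right_right, Set.mem_diff]

/-- in- and out-degrees inside `X` together are less than `k` -/
theorem inner (hH : Oriented H) {x : W} (hx : x ∈ X) :
    ({y | H x y} ∩ X).ncard + ({y | H y x} ∩ X).ncard + 1 ≤ X.ncard := by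
  have hd : Disjoint ({y | H x y} ∩ X) ({y | H y x} ∩ X) := by
    rw [Set.disjoint_left]
    rintro y ⟨h1, _⟩ ⟨h2, _⟩
    exact hH _ _ h1 h2
  rw [← Set.ncard_union_eq hd]
  have hx' : x ∉ ({y | H x y} ∩ X) ∪ ({y | H y x} ∩ X) := by
    rintro (⟨h, _⟩ | ⟨h, _⟩) <;> exact hH _ _ h h
  rw [← Set.ncard_insert_of_notMem hx']
  apply Set.ncard_le_ncard (ht := Set.toFinite _)
  rintro y (rfl | ⟨_, h⟩ | ⟨_, h⟩)
  exacts [hx, h, h]

theorem Gl_degrees {δ : ℕ} (hH : Oriented H) (hX : ∀ x ∈ X, H x v)
    (hδ : ∀ w, δ ≤ outdeg H w) (hk : ∀ x ∈ X, X.ncard ≤ indeg H x) (y : W ⊕ {w // w ∉ X}) :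
    δ ≤ outdeg (Gl H v X) y ∧ δ ≤ indeg (Gl H v X) y := by
  have hYX : ∀ y, H v y → y ∉ X := fun y h1 h2 => hH _ _ h1 (hX y h2)
  have hsplit : ∀ P : Set W, (P \ X).ncard + (P ∩ X).ncard = P.ncard := fun P => by
    rw [add_comm]; exact Set.ncard_inter_add_ncard_sdiff_eq_ncard P X
  rcases y with w | a
  · by_cases hw : w ∈ X
    · have h1 := inner (X := X) hH hw
      have h2 := hsplit {y | H w y}
      have h3 := hsplit {y | H y w}
      have h4 := hδ w
      have h5 := hk w hw
      unfold outdeg indeg at *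
      constructor
      · have : {y | Gl H v X (.inl w) y} =
            Sum.inl '' ({y | H w y} \ X) ∪ Sum.inr '' {a : {w // w ∉ X} | (a : W) ∈ {y | H y w}} := by
          ext y
          rcases y with y | y
          · simp [Gl, hw]
          · simp [Gl, hw]
        rw [this, ncard_gl, ncard_sub]
        omega
      · have : {y | Gl H v X y (.inl w)} =
            Sum.inl '' ({y | H y w} \ X) ∪ Sum.inr '' {a : {w // w ∉ X} | (a : W) ∈ {y | H w y}} := by
          ext y
          rcases y with y | y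
          · simp [Gl, hw]
          · simp [Gl, hw]
        rw [this, ncard_gl, ncard_sub]
        omega
    · constructor
      · refine (hδ w).trans ?_
        unfold outdeg
        rw [← Set.ncard_image_of_injective {y | H w y} (Sum.inl_injective (β := {w // w ∉ X}))]
        apply Set.ncard_le_ncard (ht := Set.toFinite _)
        rintro _ ⟨y, hy, rfl⟩
        exact ⟨hy, fun h => hw h.1⟩
      · refine (hδ v).trans ?_
        unfold outdeg indeg
        have h1 : {y | H v y}.ncard = {a : {w // w ∉ X} | (a : W) ∈ {y | H v y}}.ncard := by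
          rw [ncard_sub]
          congr 1
          ext y
          exact ⟨fun h => ⟨h, hYX y h⟩, fun h => h.1⟩
        rw [h1, ← Set.ncard_image_of_injective _ (Sum.inr_injective (α := W))]
        apply Set.ncard_le_ncard (ht := Set.toFinite _)
        rintro _ ⟨y, hy, rfl⟩
        exact Or.inr ⟨hw, Or.inl hy⟩
  · constructor
    · refine (hδ v).trans ?_
      unfold outdeg
      rw [← Set.ncard_image_of_injective {y | H v y} (Sum.inl_injective (β := {w // w ∉ X}))]
      apply Set.ncard_le_ncard (ht := Set.toFinite _)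
      rintro _ ⟨y, hy, rfl⟩
      exact Or.inr ⟨hYX y hy, Or.inr hy⟩
    · refine (hδ a).trans ?_
      unfold outdeg indeg
      have h2 := hsplit {y | H a y}
      have : {y | Gl H v X y (.inr a)} = Sum.inl '' ({y | H a y} ∩ X) ∪
          Sum.inr '' {b : {w // w ∉ X} | (b : W) ∈ {y | H a y}} := by
        ext y
        rcases y with y | y
        · simp [Gl, and_comm]
        · simp [Gl]
      rw [this, ncard_gl, ncard_sub]
      omega

end glue

end W_e01c10_h65
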