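import Pool.Agent.W_e01c10_h65.Defs

/-!
# The four-part graphs
-/

namespace W_e01c10_h65

/-- The circulant oriented graph on `ZMod n`: `x → x + t` for `1 ≤ t ≤ m`. -/
def circ (n m : ℕ) (x y : ZMod n) : Prop := ∃ t : ℕ, 1 ≤ t ∧ t ≤ m ∧ y = x + (t : ZMod n)

section circ

variable {n m : ℕ} [NeZero n]

theorem circ_asymm (h : 3 * m < n) {x y : ZMod n} (h1 : circ n m x y) : ¬ circ n m y x := by
  rintro ⟨s, hs1, hs2, hs⟩
  obtain ⟨t, ht1, ht2, ht⟩ := h1
  rw [ht, add_assoc, left_eq_add] at hs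
  have h3 : ((t + s : ℕ) : ZMod n) = 0 := by push_cast; exact hs
  rw [ZMod.natCast_eq_zero_iff] at h3
  have := Nat.le_of_dvd (by omega) h3
  omega

theorem circ_tri (h : 3 * m < n) {x y z : ZMod n} (h1 : circ n m x y) (h2 : circ n m y z) :
    ¬ circ n m z x := by
  rintro ⟨s, hs1, hs2, hs⟩
  obtain ⟨t, ht1, ht2, ht⟩ := h1
  obtain ⟨u, hu1, hu2, hu⟩ := h2
  rw [hu, ht, add_assoc, add_assoc, left_eq_add] at hs
  have h3 : ((t + (u + s) : ℕ) : ZMod n) = 0 := by push_cast; exact hs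
  rw [ZMod.natCast_eq_zero_iff] at h3
  have := Nat.le_of_dvd (by omega) h3
  omega

theorem natCast_inj' {s t : ℕ} (hs : s < n) (ht : t < n) (h : (s : ZMod n) = t) : s = t := by
  rw [ZMod.natCast_eq_natCast_iff'] at h
  rwa [Nat.mod_eq_of_lt hs, Nat.mod_eq_of_lt ht] at h

theorem circ_out (h : 3 * m < n) (x : ZMod n) : {y | circ n m x y}.ncard = m := by
  have : {y | circ n m x y} = (fun t : ℕ => x + (t : ZMod n)) '' (Finset.Icc 1 m : Finset ℕ) := by
    ext y
    simp only [circ, Set.mem_setOf_eq, Set.mem_image, Finset.coe_Icc, Set.mem_Icc]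
    constructor
    · rintro ⟨t, h1, h2, h3⟩; exact ⟨t, ⟨h1, h2⟩, h3.symm⟩
    · rintro ⟨t, ⟨h1, h2⟩, h3⟩; exact ⟨t, h1, h2, h3.symm⟩
  rw [this, Set.ncard_image_of_injOn, Set.ncard_coe_finset, Nat.card_Icc, Nat.add_sub_cancel]
  intro s hs t ht hst
  simp only [Finset.coe_Icc, Set.mem_Icc] at hs ht
  exact natCast_inj' (by omega) (by omega) (add_left_cancel hst)

theorem circ_in (h : 3 * m < n) (x : ZMod n) : {y | circ n m y x}.ncard = m := by
  have : {y | circ n m y x} = (fun t : ℕ => x - (t : ZMod n)) '' (Finset.Icc 1 m : Finset ℕ) := by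
    ext y
    simp only [circ, Set.mem_setOf_eq, Set.mem_image, Finset.coe_Icc, Set.mem_Icc]
    constructor
    · rintro ⟨t, h1, h2, h3⟩; exact ⟨t, ⟨h1, h2⟩, by rw [h3]; ring⟩
    · rintro ⟨t, ⟨h1, h2⟩, h3⟩; exact ⟨t, h1, h2, by rw [← h3]; ring⟩
  rw [this, Set.ncard_image_of_injOn, Set.ncard_coe_finset, Nat.card_Icc, Nat.add_sub_cancel]
  intro s hs t ht hst
  simp only [Finset.coe_Icc, Set.mem_Icc] at hs ht
  exact natCast_inj' (by omega) (by omega) (sub_right_injective hst)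

end circ

/-- The vertices of the four-part graph: `inl (false, ·)` is the part `S`, `inr (false, ·)` is `A`,
`inl (true, ·)` is `T`, `inr (true, ·)` is `B`. -/
abbrev Vx (k a : ℕ) : Type := (Bool × ZMod k) ⊕ (Bool × ZMod a)

/-- The four-part graph: circulants inside the parts, all arcs `S → A → T → B → S`. -/
def G (k a m0 m : ℕ) : Vx k a → Vx k a → Prop
  | .inl (s, x), .inl (t, y) => s = t ∧ circ k m0 x y
  | .inl (s, _), .inr (t, _) => s = t
  | .inr (s, _), .inl (t, _) => s = !t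
  | .inr (s, x), .inr (t, y) => s = t ∧ circ a m x y

section G

variable {k a m0 m : ℕ} [NeZero k] [NeZero a]

theorem G_oriented (h0 : 3 * m0 < k) (h1 : 3 * m < a) : Oriented (G k a m0 m) := by
  rintro (⟨s, x⟩ | ⟨s, x⟩) (⟨t, y⟩ | ⟨t, y⟩) h h' <;> simp only [G] at h h'
  · exact circ_asymm h0 h.2 h'.2
  · subst h; cases s <;> simp at h'
  · subst h'; cases t <;> simp at h
  · exact circ_asymm h1 h.2 h'.2

theorem G_noTri (h0 : 3 * m0 < k) (h1 : 3 * m < a) : ¬ HasTriangle (G k a m0 m) := by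
  rintro ⟨x, y, z, h, h', h''⟩
  rcases x with ⟨s, x⟩ | ⟨s, x⟩ <;> rcases y with ⟨t, y⟩ | ⟨t, y⟩ <;> rcases z with ⟨u, z⟩ | ⟨u, z⟩ <;>
    simp only [G] at h h' h''
  · exact circ_tri h0 h.2 h'.2 h''.2
  · obtain ⟨h, _⟩ := h
    subst h; subst h'; cases s <;> simp at h''
  · obtain ⟨h'', _⟩ := h''
    subst h''; subst h; cases u <;> simp at h'
  · obtain ⟨h', _⟩ := h'
    subst h; subst h'; cases s <;> simp at h''
  · obtain ⟨h', _⟩ := h'
    subst h'; subst h''; cases t <;> simp at h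
  · obtain ⟨h'', _⟩ := h''
    subst h''; subst h'; cases t <;> simp at h
  · obtain ⟨h, _⟩ := h
    subst h; subst h''; cases u <;> simp at h'
  · exact circ_tri h1 h.2 h'.2 h''.2

theorem ncard_sum (P : Set (Bool × ZMod k)) (Q : Set (Bool × ZMod a)) :
    (Sum.inl '' P ∪ Sum.inr '' Q : Set (Vx k a)).ncard = P.ncard + Q.ncard := by
  rw [Set.ncard_union_eq, Set.ncard_image_of_injective _ Sum.inl_injective,
    Set.ncard_image_of_injective _ Sum.inr_injective]
  rw [Set.disjoint_left]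
  rintro x ⟨p, _, rfl⟩ ⟨q, _, hq⟩
  cases hq

theorem ncard_pair {n : ℕ} [NeZero n] (s : Bool) (P : Set (ZMod n)) :
    ((fun x => (s, x)) '' P : Set (Bool × ZMod n)).ncard = P.ncard :=
  Set.ncard_image_of_injective _ fun _ _ h => (Prod.mk.inj h).2

theorem outdeg_inl (h0 : 3 * m0 < k) (s : Bool) (x : ZMod k) :
    outdeg (G k a m0 m) (.inl (s, x)) = m0 + a := by
  have : {y | G k a m0 m (.inl (s, x)) y} =
      Sum.inl '' ((fun y => (s, y)) '' {y | circ k m0 x y}) ∪
        Sum.inr '' ((fun y => (s, y)) '' (Set.univ : Set (ZMod a))) := by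
    ext y
    rcases y with ⟨t, y⟩ | ⟨t, y⟩ <;> simp [G, eq_comm, and_comm]
  rw [outdeg, this, ncard_sum, ncard_pair, ncard_pair, circ_out h0, Set.ncard_univ,
    Nat.card_eq_fintype_card, ZMod.card]

theorem indeg_inl (h0 : 3 * m0 < k) (s : Bool) (x : ZMod k) :
    indeg (G k a m0 m) (.inl (s, x)) = m0 + a := by
  have : {y | G k a m0 m y (.inl (s, x))} =
      Sum.inl '' ((fun y => (s, y)) '' {y | circ k m0 y x}) ∪
        Sum.inr '' ((fun y => (!s, y)) '' (Set.univ : Set (ZMod a))) := by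
    ext y
    rcases y with ⟨t, y⟩ | ⟨t, y⟩ <;> simp [G, eq_comm, and_comm]
  rw [indeg, this, ncard_sum, ncard_pair, ncard_pair, circ_in h0, Set.ncard_univ,
    Nat.card_eq_fintype_card, ZMod.card]

theorem outdeg_inr (h1 : 3 * m < a) (s : Bool) (x : ZMod a) :
    outdeg (G k a m0 m) (.inr (s, x)) = k + m := by
  have : {y | G k a m0 m (.inr (s, x)) y} =
      Sum.inl '' ((fun y => (!s, y)) '' (Set.univ : Set (ZMod k))) ∪
        Sum.inr '' ((fun y => (s, y)) '' {y | circ a m x y}) := by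
    ext y
    rcases y with ⟨t, y⟩ | ⟨t, y⟩
    · cases s <;> cases t <;> simp [G]
    · simp [G, eq_comm, and_comm]
  rw [outdeg, this, ncard_sum, ncard_pair, ncard_pair, circ_out h1, Set.ncard_univ,
    Nat.card_eq_fintype_card, ZMod.card]

theorem indeg_inr (h1 : 3 * m < a) (s : Bool) (x : ZMod a) :
    indeg (G k a m0 m) (.inr (s, x)) = k + m := by
  have : {y | G k a m0 m y (.inr (s, x))} =
      Sum.inl '' ((fun y => (s, y)) '' (Set.univ : Set (ZMod k))) ∪
        Sum.inr '' ((fun y => (s, y)) '' {y | circ a m y x}) := by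
    ext y
    rcases y with ⟨t, y⟩ | ⟨t, y⟩ <;> simp [G, eq_comm, and_comm]
  rw [indeg, this, ncard_sum, ncard_pair, ncard_pair, circ_in h1, Set.ncard_univ,
    Nat.card_eq_fintype_card, ZMod.card]

theorem G_semideg (h0 : 3 * m0 < k) (h1 : 3 * m < a) (h2 : k + m ≤ m0 + a) :
    semideg (G k a m0 m) = k + m := by
  refine le_antisymm ?_ ?_
  · refine (ciInf_le (OrderBot.bddBelow _) (.inr (false, 0))).trans ?_
    rw [outdeg_inr h1]
    exact min_le_left _ _
  · haveI : Nonempty (Vx k a) := ⟨.inr (false, 0)⟩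
    refine le_ciInf fun x => ?_
    rcases x with ⟨s, x⟩ | ⟨s, x⟩
    · rw [outdeg_inl h0, indeg_inl h0]; simpa using h2
    · rw [outdeg_inr h1, indeg_inr h1]; simp

/-- Deleting the part `S` destroys strong connectivity. -/
theorem G_cut : ¬ StrongOff (G k a m0 m) (Sum.inl '' ((fun y => (false, y)) '' Set.univ)) := by
  intro h
  have h1 := h (.inr (true, 0)) (.inr (false, 0)) (by simp) (by simp)
  have key : ∀ y, Relation.ReflTransGen (fun u v => G k a m0 m u v ∧
      u ∉ (Sum.inl '' ((fun y => (false, y)) '' Set.univ) : Set (Vx k a)) ∧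
      v ∉ (Sum.inl '' ((fun y => (false, y)) '' Set.univ) : Set (Vx k a))) (.inr (true, 0)) y →
      ∀ z, y ≠ .inr (false, z) := by
    intro y hy
    induction hy with
    | refl => intro z hz; simp at hz
    | @tail b c _ hbc ih =>
      intro z hz
      subst hz
      obtain ⟨hbc, hb, _⟩ := hbc
      rcases b with ⟨s, x⟩ | ⟨s, x⟩
      · simp only [G] at hbc
        subst hbc
        exact hb ⟨(false, x), ⟨x, trivial, rfl⟩, rfl⟩
      · simp only [G] at hbc
        obtain ⟨rfl, _⟩ := hbc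
        exact ih x rfl
  exact key _ h1 0 rfl

theorem G_conn : conn (G k a m0 m) ≤ k := by
  apply Nat.sInf_le
  refine ⟨_, ?_, G_cut⟩
  rw [Set.ncard_image_of_injective _ Sum.inl_injective, ncard_pair, Set.ncard_univ,
    Nat.card_eq_fintype_card, ZMod.card]

theorem card_Vx : Fintype.card (Vx k a) = 2 * k + 2 * a := by
  simp [Fintype.card_sum, ZMod.card]

end G

/-- For all `d`, `k ≥ 1` with `4 k ≤ 3 d + 1` there is a triangle-free oriented graph with minimum
semi-degree `d`, order `6 d - 4 k + 2` and connectivity at most `k`. -/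
theorem exists_graph (d k : ℕ) (hk : 1 ≤ k) (h : 4 * k ≤ 3 * d + 1) :
    ∃ (V : Type) (_ : Fintype V) (D : V → V → Prop), Oriented D ∧ ¬ HasTriangle D ∧
      semideg D = d ∧ Fintype.card V + 4 * k = 6 * d + 2 ∧ conn D ≤ k := by
  haveI : NeZero k := ⟨by omega⟩
  have hkd : k ≤ d := by omega
  have h0 : 3 * (d - (3 * (d - k) + 1)) < k := by omega
  have h1 : 3 * (d - k) < 3 * (d - k) + 1 := by omega
  refine ⟨Vx k (3 * (d - k) + 1), inferInstance, G k (3 * (d - k) + 1) (d - (3 * (d - k) + 1)) (d - k),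
    G_oriented h0 h1, G_noTri h0 h1, ?_, ?_, G_conn⟩
  · rw [G_semideg h0 h1 (by omega)]; omega
  · rw [card_Vx]; omega

/-- No `ψ > (6 - r) / 4` is admissible for `r`. -/
theorem not_admissible {r ψ : ℝ} (hr : 3 < r) (hr6 : r < 6) (h : (6 - r) / 4 < ψ) :
    ¬ Admissible r ψ := by
  set φ := min ψ (3 / 4) with hφ
  have hφ1 : φ ≤ ψ := min_le_left _ _
  have hφ2 : φ ≤ 3 / 4 := min_le_right _ _
  have hφ3 : (6 - r) / 4 < φ := lt_min h (by linarith)
  obtain ⟨d, hd⟩ := exists_nat_gt (6 / (4 * (φ - (6 - r) / 4)))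
  have hpos : 0 < 4 * (φ - (6 - r) / 4) := by linarith
  rw [div_lt_iff₀ hpos] at hd
  have hd0 : 0 < (d : ℝ) := by
    by_contra hcon
    have : (d : ℝ) = 0 := le_antisymm (not_lt.1 hcon) (Nat.cast_nonneg d)
    rw [this] at hd
    linarith
  have hφpos : 0 < φ := by linarith
  set k := ⌊φ * d⌋₊ with hk
  have hk1 : (k : ℝ) ≤ φ * d := Nat.floor_le (by positivity)
  have hk2 : φ * d < k + 1 := Nat.lt_floor_add_one _
  have h4 : (6 - r) * d + 2 < 4 * k := by nlinarith
  have h5 : 1 ≤ k := by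
    have : (0 : ℝ) < k := by nlinarith
    exact_mod_cast this
  have h6 : 4 * k ≤ 3 * d + 1 := by
    have : (4 * k : ℝ) ≤ 3 * d + 1 := by nlinarith
    exact_mod_cast this
  intro hadm
  obtain ⟨V, hV, D, h7, h8, h9, h10, h11⟩ := exists_graph d k h5 h6
  refine h8 (hadm V D d ?_ h7 h9 ?_ ?_)
  · exact_mod_cast hd0
  · have : (Fintype.card V : ℝ) + 4 * k = 6 * d + 2 := by exact_mod_cast h10
    nlinarith
  · have : (conn D : ℝ) ≤ k := by exact_mod_cast h11
    nlinarith

theorem psi_le {r : ℝ} (hr : 3 < r) (hr6 : r < 6) : psi r ≤ (6 - r) / 4 := by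
  unfold psi
  apply Real.sSup_le
  · rintro ψ ⟨_, _, h⟩
    by_contra hcon
    exact not_admissible hr hr6 (not_le.1 hcon) h
  · linarith

end W_e01c10_h65
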