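import Pool.Agent.W_e01c10_h65.Glue

/-!
# Upper bound for `ψ(r)` near `2 / c`
-/

namespace W_e01c10_h65

open Finset

section select

variable {W : Type} [Fintype W] {H : W → W → Prop}

open Classical in
theorem outdeg_eq (x : W) : outdeg H x = #(univ.filter fun y => H x y) := by
  unfold outdeg
  rw [← Set.ncard_coe_finset]
  congr 1
  ext y; simp

open Classical in
theorem indeg_eq (x : W) : indeg H x = #(univ.filter fun y => H y x) := by
  unfold indeg
  rw [← Set.ncard_coe_finset]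
  congr 1
  ext y; simp

open Classical in
theorem double (P : Finset W) : ∑ x ∈ P, outdeg H x = ∑ y, #(P.filter fun x => H x y) := by
  have := Finset.sum_card_bipartiteAbove_eq_sum_card_bipartiteBelow (s := P) (t := univ) H
  simp only [bipartiteAbove, bipartiteBelow] at this
  rw [← this]
  exact sum_congr rfl fun x _ => outdeg_eq x

open Classical in
theorem exists_set {δ k : ℕ} (hδ : ∀ w, δ ≤ outdeg H w) (hN : Fintype.card W ≤ 4 * δ)
    (hk : 1 ≤ k) (h6 : 6 * k ≤ δ) (hne : Nonempty W) :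
    ∃ (v : W) (X : Set W), X.ncard = k ∧ (∀ x ∈ X, H x v) ∧ ∀ x ∈ X, k ≤ indeg H x := by
  set N := Fintype.card W with hNdef
  have hNpos : 0 < N := Fintype.card_pos
  set P : Finset W := univ.filter fun x => k ≤ indeg H x with hP
  have h1 : ∑ x, indeg H x = ∑ x, outdeg H x := by
    have := double (H := H) (univ : Finset W)
    rw [this]
    exact sum_congr rfl fun x _ => indeg_eq x
  have h2 : δ * N ≤ ∑ x, outdeg H x := by
    have := Finset.card_nsmul_le_sum (univ : Finset W) (fun x => outdeg H x) δ fun x _ => hδ x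
    simpa [mul_comm] using this
  have h3 : ∑ x, indeg H x ≤ k * N + N * #P := by
    rw [← Finset.sum_filter_add_sum_filter_not univ (fun x => k ≤ indeg H x), add_comm]
    refine add_le_add ?_ ?_
    · refine (Finset.sum_le_card_nsmul _ _ k fun x hx => ?_).trans ?_
      · simp only [mem_filter, mem_univ, true_and, not_le] at hx
        exact hx.le
      · rw [smul_eq_mul, mul_comm]
        exact Nat.mul_le_mul_left _ (card_le_univ _)
    · refine (Finset.sum_le_card_nsmul _ _ N fun x hx => ?_).trans ?_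
      · rw [indeg_eq]; exact card_le_univ _
      · rw [smul_eq_mul, mul_comm]
  have h4 : δ ≤ k + #P := by
    have : N * δ ≤ N * (k + #P) := by
      calc N * δ = δ * N := mul_comm _ _
        _ ≤ k * N + N * #P := by rw [← h1] at h2; exact h2.trans h3
        _ = N * (k + #P) := by ring
    exact Nat.le_of_mul_le_mul_left this hNpos
  obtain ⟨v, hv⟩ : ∃ v, k ≤ #(P.filter fun x => H x v) := by
    by_contra hcon
    push Not at hcon
    have h5 : δ * #P ≤ ∑ x ∈ P, outdeg H x := by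
      have := Finset.card_nsmul_le_sum P (fun x => outdeg H x) δ fun x _ => hδ x
      simpa [mul_comm] using this
    rw [double] at h5
    have h6' : ∑ y, #(P.filter fun x => H x y) ≤ N * k := by
      refine (Finset.sum_le_card_nsmul _ _ k fun y _ => (hcon y).le).trans ?_
      simp [hNdef]
    have h7 : δ * #P ≤ 4 * δ * k := h5.trans (h6'.trans (Nat.mul_le_mul_right _ hN))
    have h8 : 5 * k ≤ #P := by omega
    have h9 : δ * (5 * k) ≤ 4 * δ * k := (Nat.mul_le_mul_left _ h8).trans h7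
    have h10 : 0 < δ * k := Nat.mul_pos (by omega) (by omega)
    nlinarith
  obtain ⟨X, hX1, hX2⟩ := Finset.exists_subset_card_eq hv
  refine ⟨v, (X : Set W), by rw [Set.ncard_coe_finset, hX2], ?_, ?_⟩
  · intro x hx
    exact (mem_filter.1 (hX1 (mem_coe.1 hx))).2
  · intro x hx
    have := (mem_filter.1 (hX1 (mem_coe.1 hx))).1
    exact (mem_filter.1 this).2

end select

/-- The blow-up: every vertex is replaced by `t` copies. -/
def blow {W : Type} (H : W → W → Prop) (t : ℕ) (x y : W × Fin t) : Prop := H x.1 y.1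

theorem outdeg_blow {W : Type} [Fintype W] (H : W → W → Prop) (t : ℕ) (x : W × Fin t) :
    outdeg (blow H t) x = outdeg H x.1 * t := by
  unfold outdeg
  have : {y : W × Fin t | blow H t x y} = {y | H x.1 y} ×ˢ (Set.univ : Set (Fin t)) := by
    ext y; simp [blow]
  rw [this, Set.ncard_prod, Set.ncard_univ, Nat.card_eq_fintype_card, Fintype.card_fin]

theorem CH_one : CH 1 := by
  intro V _ _ D hD h
  exfalso
  obtain ⟨x⟩ := ‹Nonempty V›
  have h1 := h x
  rw [one_mul] at h1
  have h2 : Fintype.card V ≤ outdeg D x := by exact_mod_cast h1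
  have h3 : outdeg D x < Fintype.card V := by
    unfold outdeg
    rw [← Nat.card_eq_fintype_card, ← Set.ncard_univ]
    apply Set.ncard_lt_ncard _ (Set.toFinite _)
    rw [Set.ssubset_univ_iff]
    intro hu
    have : x ∈ {y | D x y} := by rw [hu]; trivial
    exact hD x this
  omega

theorem not_CH {c : ℝ} (hc : c < 1 / 3) : ¬ CH c := by
  intro h
  obtain ⟨m, hm⟩ := exists_nat_gt (c / (1 - 3 * c))
  have hpos : 0 < 1 - 3 * c := by linarith
  rw [div_lt_iff₀ hpos] at hm
  have hlt : 3 * m < 3 * m + 1 := by omega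
  have h1 := h (ZMod (3 * m + 1)) (circ (3 * m + 1) m) (fun x hx => circ_asymm hlt hx hx) ?_
  · rcases h1 with ⟨x, y, h1, h2⟩ | ⟨x, y, z, h1, h2, h3⟩
    · exact circ_asymm hlt h1 h2
    · exact circ_tri hlt h1 h2 h3
  · intro x
    rw [outdeg, circ_out hlt, ZMod.card]
    push_cast
    nlinarith

theorem third_le : 1 / 3 ≤ cch := by
  apply le_csInf ⟨1, CH_one⟩
  intro c hc
  by_contra hcon
  exact not_CH (not_le.1 hcon) hc

theorem cch_le_one : cch ≤ 1 := by
  apply csInf_le _ CH_one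
  exact ⟨1 / 3, fun c hc => by by_contra hcon; exact not_CH (not_le.1 hcon) hc⟩

theorem not_CH_of_lt {c : ℝ} (hc : c < cch) : ¬ CH c := fun h =>
  absurd (csInf_le ⟨1 / 3, fun c hc => by by_contra hcon; exact not_CH (not_le.1 hcon) hc⟩ h)
    (not_le.2 hc)

/-- Near `2 / c` no `ψ > 2 / c - r` is admissible for `r`. -/
theorem not_admissible' {r ψ : ℝ} (hr : 2 / cch - 1 / 6 < r) (h : 2 / cch - r < ψ)
    (h0 : 0 < ψ) : ¬ Admissible r ψ := by
  have hc3 := third_le
  have hc1 := cch_le_one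
  have hcpos : 0 < cch := by linarith
  set φ := min ψ (1 / 6) with hφ
  have hφ1 : φ ≤ ψ := min_le_left _ _
  have hφ2 : φ ≤ 1 / 6 := min_le_right _ _
  have hφ0 : 0 < φ := lt_min h0 (by norm_num)
  have hφ3 : 2 / cch < r + φ := by
    rcases min_choice ψ (1 / 6 : ℝ) with h' | h' <;> rw [← hφ] at h' <;> rw [h'] <;> linarith
  have h2c : 2 ≤ 2 / cch := by rw [le_div_iff₀ hcpos]; linarith
  have hr0 : 0 < r := by linarith
  have hrφ : 0 < r + φ := by linarith
  have hlt : max (1 / 4) (2 / (r + φ)) < cch := by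
    apply max_lt (by linarith)
    rw [div_lt_iff₀ hrφ]
    rw [div_lt_iff₀ hcpos] at hφ3
    linarith
  obtain ⟨c', hc'1, hc'2⟩ := exists_between hlt
  have hc4 : 1 / 4 < c' := lt_of_le_of_lt (le_max_left _ _) hc'1
  have hc5 : 2 / (r + φ) < c' := lt_of_le_of_lt (le_max_right _ _) hc'1
  have hc6 : 2 < c' * (r + φ) := by rwa [div_lt_iff₀ hrφ] at hc5
  have hnot := not_CH_of_lt hc'2
  unfold CH at hnot
  push Not at hnot
  obtain ⟨W, hW, hWne, H, hloop, hout, h2cyc, htri⟩ := hnot
  set N := Fintype.card W with hN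
  have hNpos : 0 < N := Fintype.card_pos
  have hNpos' : (0 : ℝ) < N := by exact_mod_cast hNpos
  set δ0 := ⌈c' * N⌉₊ with hδ0
  have hδ0a : c' * N ≤ δ0 := Nat.le_ceil _
  have hδ0b : ∀ w, δ0 ≤ outdeg H w := fun w => Nat.ceil_le.2 (hout w)
  have hδ0pos : (0 : ℝ) < δ0 := lt_of_lt_of_le (by positivity) hδ0a
  -- the blow-up factor
  have hgap : 0 < (r + φ) * δ0 - 2 * N := by
    have h1 : 2 * (N : ℝ) < c' * (r + φ) * N := by nlinarith
    have h2 : c' * (r + φ) * N ≤ (r + φ) * δ0 := by nlinarith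
    linarith
  obtain ⟨t, ht⟩ := exists_nat_gt (max (1 / ((r + φ) * δ0 - 2 * N)) (1 / (φ * δ0)))
  have ht1 : 1 / ((r + φ) * δ0 - 2 * N) < t := lt_of_le_of_lt (le_max_left _ _) ht
  have ht2 : 1 / (φ * δ0) < t := lt_of_le_of_lt (le_max_right _ _) ht
  rw [div_lt_iff₀ hgap] at ht1
  rw [div_lt_iff₀ (by positivity)] at ht2
  have htpos : (0 : ℝ) < t := lt_trans (by positivity) (lt_of_le_of_lt (le_max_right _ _) ht)
  have htpos' : 0 < t := by exact_mod_cast htpos
  set δ := δ0 * t with hδ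
  set k := ⌊φ * δ⌋₊ with hk
  have hk1 : (k : ℝ) ≤ φ * δ := Nat.floor_le (by positivity)
  have hk2 : φ * δ < k + 1 := Nat.lt_floor_add_one _
  have hδcast : (δ : ℝ) = δ0 * t := by rw [hδ]; push_cast; ring
  have hk3 : 1 ≤ k := by
    apply Nat.le_floor
    rw [hδcast]; push_cast; nlinarith
  have hδpos : (0 : ℝ) < δ := by rw [hδcast]; positivity
  have hk4 : 6 * k ≤ δ := by
    have : (6 * k : ℝ) ≤ δ := by nlinarith
    exact_mod_cast this
  haveI : Nonempty (Fin t) := ⟨⟨0, htpos'⟩⟩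
  have hor : Oriented (blow H t) := fun x y h1 h2 => h2cyc _ _ h1 h2
  have hnt : ¬ HasTriangle (blow H t) := fun ⟨x, y, z, h1, h2, h3⟩ => htri ⟨x.1, y.1, z.1, h1, h2, h3⟩
  have hod : ∀ w, δ ≤ outdeg (blow H t) w := fun w => by
    rw [outdeg_blow]; exact Nat.mul_le_mul_right _ (hδ0b w.1)
  have hcard : Fintype.card (W × Fin t) = N * t := by
    rw [Fintype.card_prod, Fintype.card_fin]
  have hN4 : Fintype.card (W × Fin t) ≤ 4 * δ := by
    rw [hcard]
    have h1 : (N : ℝ) ≤ 4 * δ0 := by nlinarith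
    have h2 : N ≤ 4 * δ0 := by exact_mod_cast h1
    calc N * t ≤ 4 * δ0 * t := Nat.mul_le_mul_right _ h2
      _ = 4 * δ := by rw [hδ]; ring
  obtain ⟨v, X, hXk, hXv, hXd⟩ := exists_set (H := blow H t) hod hN4 hk3 hk4 inferInstance
  have hvX : v ∉ X := fun hv => hor _ _ (hXv v hv) (hXv v hv)
  classical
  intro hadm
  set D := Gl (blow H t) v X with hD
  haveI : Nonempty ((W × Fin t) ⊕ {w // w ∉ X}) := ⟨.inl v⟩
  have hdeg := Gl_degrees hor hXv hod (by rw [hXk]; exact hXd)
  have hsemi : δ ≤ semideg D := le_ciInf fun y => le_min (hdeg y).1 (hdeg y).2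
  have hsemi' : (δ : ℝ) ≤ semideg D := by exact_mod_cast hsemi
  have hcardD : Fintype.card ((W × Fin t) ⊕ {w // w ∉ X}) + k = 2 * (N * t) := by
    have h1 : Fintype.card {w // w ∉ X} + k = N * t := by
      have h3 : (Xᶜ : Set (W × Fin t)).ncard + X.ncard = N * t := by
        rw [add_comm, Set.ncard_add_ncard_compl, Nat.card_eq_fintype_card, hcard]
      rw [← hXk, ← h3]
      congr 1
      rw [← Nat.card_eq_fintype_card]
      rfl
    rw [Fintype.card_sum, hcard]
    omega
  refine Gl_noTri hnt hXv (hadm _ D (semideg D) ?_ (Gl_oriented hor) rfl ?_ ?_)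
  · have : 0 < δ := by exact_mod_cast hδpos
    omega
  · have h1 : (Fintype.card ((W × Fin t) ⊕ {w // w ∉ X}) : ℝ) + k = 2 * (N * t) := by
      exact_mod_cast hcardD
    have h2 : (Fintype.card ((W × Fin t) ⊕ {w // w ∉ X}) : ℝ) ≤ r * δ := by
      have h3 : φ * δ - 1 < k := by linarith
      have h4 : 1 < t * ((r + φ) * δ0 - 2 * N) := ht1
      rw [hδcast] at h3 ⊢
      nlinarith
    nlinarith
  · have h1 : conn D ≤ k := by rw [← hXk]; exact Gl_conn hvX
    have h2 : (conn D : ℝ) ≤ k := by exact_mod_cast h1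
    nlinarith

theorem psi_le' {r : ℝ} (hr : 2 / cch - 1 / 6 < r) (hr' : r ≤ 2 / cch) : psi r ≤ 2 / cch - r := by
  unfold psi
  apply Real.sSup_le
  · rintro ψ ⟨h0, _, h⟩
    by_contra hcon
    exact not_admissible' hr (not_le.1 hcon) h0 h
  · linarith

theorem psi_nonneg (r : ℝ) : 0 ≤ psi r := Real.sSup_nonneg fun _ h => h.1.le

open Filter Topology in
/-- `ψ(r)` tends to `0` when `r` increases to `2 / c`. -/
theorem psi_tendsto : Tendsto psi (𝓝[<] (2 / cch)) (𝓝 0) := by
  have h1 : Tendsto (fun r : ℝ => 2 / cch - r) (𝓝[<] (2 / cch)) (𝓝 0) := by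
    have : Tendsto (fun r : ℝ => 2 / cch - r) (𝓝 (2 / cch)) (𝓝 (2 / cch - 2 / cch)) :=
      tendsto_const_nhds.sub tendsto_id
    rw [sub_self] at this
    exact this.mono_left nhdsWithin_le_nhds
  refine tendsto_of_tendsto_of_tendsto_of_le_of_le' tendsto_const_nhds h1
    (Eventually.of_forall psi_nonneg) ?_
  have h2 : Set.Ioo (2 / cch - 1 / 6) (2 / cch) ∈ 𝓝[<] (2 / cch) :=
    Ioo_mem_nhdsLT (by linarith)
  filter_upwards [h2] with r hr
  exact psi_le' hr.1 hr.2.le

end W_e01c10_h65
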